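import Mathlib

set_option autoImplicit false

open Finset

namespace Pool.Agent.Lib.MP_b020d4_co

variable {G : Type*} [AddCommGroup G] [Fintype G] [DecidableEq G]

/-- all sums of two elements are distinct up to order -/
def Sid (A : Finset G) : Prop :=
  ∀ a ∈ A, ∀ b ∈ A, ∀ c ∈ A, ∀ d ∈ A, a + b = c + d → (a = c ∧ b = d) ∨ (a = d ∧ b = c)

/-- number of representations of `g` as a difference -/
def rep (A : Finset G) (g : G) : ℕ := (A.filter fun b => b - g ∈ A).card

/-- nonzero elements which are not differences -/
def miss (A : Finset G) : Finset G := univ.filter fun g => g ≠ 0 ∧ rep A g = 0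

/-- number of tangents through `P` -/
def tan (A : Finset G) (P : G) : ℕ := (A.filter fun a => a + a - P ∈ A).card

/-- number of points of `A` not joined to `P` -/
def bad (A : Finset G) (P : G) : ℕ := (A.filter fun a => P - a ∈ miss A).card

omit [Fintype G] in
lemma rep_zero (A : Finset G) : rep A 0 = A.card := by
  unfold rep
  congr 1
  ext b
  simp

omit [Fintype G] in
lemma rep_le_one {A : Finset G} (hS : Sid A) {g : G} (hg : g ≠ 0) : rep A g ≤ 1 := by
  unfold rep
  rw [Finset.card_le_one]
  intro b hb c hc
  rw [mem_filter] at hb hc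
  rcases hS b hb.1 (c - g) hc.2 c hc.1 (b - g) hb.2 (by abel) with h | h
  · exact h.1
  · exfalso
    apply hg
    have h1 := h.1
    have : b - (b - g) = 0 := by rw [← h1]; simp
    simpa using this

lemma mem_miss {A : Finset G} {g : G} : g ∈ miss A ↔ g ≠ 0 ∧ rep A g = 0 := by
  simp [miss]

omit [Fintype G] in
lemma rep_pos {A : Finset G} {a b g : G} (ha : a ∈ A) (hb : b ∈ A) (h : a - b = g) :
    1 ≤ rep A g := by
  unfold rep
  apply Finset.card_pos.mpr
  refine ⟨a, ?_⟩
  rw [mem_filter]
  refine ⟨ha, ?_⟩
  rw [← h]
  simpa using hb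

lemma card_filter_sub (A : Finset G) (x : G) : (univ.filter fun g => x - g ∈ A).card = A.card := by
  apply Finset.card_bij (fun g _ => x - g)
  · intro g hg
    simpa using hg
  · intro g _ h _ hgh
    simpa using hgh
  · intro b hb
    exact ⟨x - b, by simpa using hb, by abel⟩

lemma sum_rep (A : Finset G) : ∑ g, rep A g = A.card * A.card := by
  unfold rep
  simp_rw [Finset.card_filter]
  rw [Finset.sum_comm]
  have : ∀ b ∈ A, ∑ g : G, (if b - g ∈ A then 1 else 0) = A.card := by
    intro b _
    rw [← Finset.card_filter]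
    exact card_filter_sub A b
  rw [Finset.sum_congr rfl this]
  simp

lemma sum_tan (A : Finset G) : ∑ P, tan A P = A.card * A.card := by
  unfold tan
  simp_rw [Finset.card_filter]
  rw [Finset.sum_comm]
  have : ∀ b ∈ A, ∑ g : G, (if b + b - g ∈ A then 1 else 0) = A.card := by
    intro b _
    rw [← Finset.card_filter]
    exact card_filter_sub A (b + b)
  rw [Finset.sum_congr rfl this]
  simp

lemma sum_bad (A : Finset G) : ∑ P, bad A P = A.card * (miss A).card := by
  unfold bad
  simp_rw [Finset.card_filter]
  rw [Finset.sum_comm]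
  have : ∀ b ∈ A, ∑ g : G, (if g - b ∈ miss A then 1 else 0) = (miss A).card := by
    intro b _
    rw [← Finset.card_filter]
    apply Finset.card_bij (fun g _ => g - b)
    · intro g hg
      simpa using hg
    · intro g _ h _ hgh
      simpa using hgh
    · intro c hc
      exact ⟨c + b, by simpa using hc, by abel⟩
  rw [Finset.sum_congr rfl this]
  simp

lemma card_eq {A : Finset G} (hS : Sid A) :
    Fintype.card G + A.card = A.card * A.card + 1 + (miss A).card := by
  have h1 := sum_rep A
  rw [← Finset.add_sum_erase univ _ (mem_univ (0 : G)), rep_zero] at h1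
  have h2 : ∀ g ∈ univ.erase (0 : G), rep A g + (if g ∈ miss A then 1 else 0) = 1 := by
    intro g hg
    have hg0 : g ≠ 0 := by simpa using hg
    have h3 := rep_le_one hS hg0
    by_cases hm : g ∈ miss A
    · rw [if_pos hm]
      rw [mem_miss] at hm
      omega
    · rw [if_neg hm]
      rw [mem_miss] at hm
      have : rep A g ≠ 0 := fun h => hm ⟨hg0, h⟩
      omega
  have h3 : ∑ g ∈ univ.erase (0 : G), rep A g +
      ∑ g ∈ univ.erase (0 : G), (if g ∈ miss A then 1 else 0) = (univ.erase (0 : G)).card := by
    rw [← Finset.sum_add_distrib, Finset.sum_congr rfl h2]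
    simp
  have h4 : ∑ g ∈ univ.erase (0 : G), (if g ∈ miss A then 1 else 0) = (miss A).card := by
    rw [← Finset.card_filter]
    congr 1
    ext g
    simp [mem_miss]
  rw [h4, Finset.card_erase_of_mem (mem_univ _), Finset.card_univ] at h3
  have h5 : 0 < Fintype.card G := Fintype.card_pos_iff.mpr ⟨0⟩
  omega

omit [Fintype G] in
/-- a sum has at most two representations -/
lemma card_sum_le_two {A : Finset G} (hS : Sid A) (s : G) :
    (A.filter fun b => s - b ∈ A).card ≤ 2 := by
  by_cases h : (A.filter fun b => s - b ∈ A).Nonempty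
  · obtain ⟨b, hb⟩ := h
    have hsub : (A.filter fun b => s - b ∈ A) ⊆ {b, s - b} := by
      intro c hc
      rw [mem_filter] at hb hc
      rw [mem_insert, mem_singleton]
      rcases hS c hc.1 (s - c) hc.2 b hb.1 (s - b) hb.2 (by abel) with h | h
      · exact Or.inl h.1
      · exact Or.inr h.1
    exact (Finset.card_le_card hsub).trans Finset.card_le_two
  · rw [Finset.not_nonempty_iff_eq_empty] at h
    simp [h]

/-- parity of the number of tangents through a point outside `A` -/
lemma parity {A : Finset G} (hS : Sid A) {P : G} (hP : P ∉ A) :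
    ((tan A P + bad A P : ℕ) : ZMod 2) = (A.card : ZMod 2) := by
  have h1 : ∑ a ∈ A, rep A (P - a) = ∑ a ∈ A, ∑ b ∈ A, (if a + b - P ∈ A then 1 else 0) := by
    apply Finset.sum_congr rfl
    intro a _
    unfold rep
    rw [Finset.card_filter]
    apply Finset.sum_congr rfl
    intro b _
    have : b - (P - a) = a + b - P := by abel
    rw [this]
  have h2 : ∀ a ∈ A, rep A (P - a) + (if P - a ∈ miss A then 1 else 0) = 1 := by
    intro a ha
    have h0 : P - a ≠ 0 := by
      intro h
      apply hP
      rw [sub_eq_zero.mp h]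
      exact ha
    have h3 := rep_le_one hS h0
    by_cases hm : P - a ∈ miss A
    · rw [if_pos hm]
      rw [mem_miss] at hm
      omega
    · rw [if_neg hm]
      rw [mem_miss] at hm
      have : rep A (P - a) ≠ 0 := fun h => hm ⟨h0, h⟩
      omega
  have h3 : ∑ a ∈ A, rep A (P - a) + bad A P = A.card := by
    unfold bad
    rw [Finset.card_filter, ← Finset.sum_add_distrib, Finset.sum_congr rfl h2]
    simp
  have h4 : ((∑ a ∈ A, rep A (P - a) : ℕ) : ZMod 2) = (tan A P : ZMod 2) := by
    rw [h1, ← Finset.sum_product', ← Finset.diag_union_offDiag,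
      Finset.sum_union (Finset.disjoint_diag_offDiag A)]
    have h5 : ∑ x ∈ A.diag, (if x.1 + x.2 - P ∈ A then 1 else 0) = tan A P := by
      unfold tan
      rw [Finset.card_filter, Finset.sum_diag]
    have h6 : ∑ x ∈ A.offDiag, (if x.1 + x.2 - P ∈ A then (1 : ZMod 2) else 0) = 0 := by
      apply Finset.sum_involution (fun x _ => (x.2, x.1))
      · intro x _
        have : x.2 + x.1 - P = x.1 + x.2 - P := by abel
        simp only [this]
        exact CharTwo.add_self_eq_zero _
      · intro x hx _ h
        rw [Finset.mem_offDiag] at hx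
        apply hx.2.2
        exact (congrArg Prod.snd h)
      · intro x hx
        rw [Finset.mem_offDiag] at hx ⊢
        exact ⟨hx.2.1, hx.1, Ne.symm hx.2.2⟩
      · intro x _
        rfl
    push_cast
    rw [h6, add_zero]
    rw [← h5]
    push_cast
    rfl
  rw [Nat.cast_add, ← h4, ← Nat.cast_add, h3]

end Pool.Agent.Lib.MP_b020d4_co
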