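import Pool.Agent.Lib.MP_b020d4_co.Final

set_option autoImplicit false

open Finset

namespace Pool.Agent.Lib.MP_b020d4_co

variable {G : Type*} [AddCommGroup G] [Fintype G] [DecidableEq G]

/-- if doubling maps `A` to a translate of `A`, the number of tangents through a point is a number
of representations as a difference -/
lemma tan_eq_rep (hodd : Odd (Fintype.card G)) {A : Finset G} {N : G}
    (h1 : ∀ a ∈ A, a + a - N ∈ A) (P : G) : tan A P = rep A (P - N) := by
  have hinj : Set.InjOn (fun a => a + a - N) (A : Set G) := by
    intro a _ b _ h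
    exact double_inj hodd (sub_left_injective h)
  have hsurj : ∀ b ∈ A, ∃ a ∈ A, a + a - N = b := by
    intro b hb
    obtain ⟨a, ha, h⟩ := Finset.surj_on_of_inj_on_of_card_le (s := A) (t := A)
      (fun a _ => a + a - N) (fun a ha => h1 a ha)
      (fun a b ha hb h => hinj ha hb h) le_rfl b hb
    exact ⟨a, ha, h.symm⟩
  unfold tan rep
  apply Finset.card_bij (fun a _ => a + a - N)
  · intro a ha
    rw [mem_filter] at ha ⊢
    refine ⟨h1 a ha.1, ?_⟩
    have : a + a - N - (P - N) = a + a - P := by abel
    rw [this]
    exact ha.2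
  · intro a ha b hb h
    rw [mem_filter] at ha hb
    exact hinj ha.1 hb.1 h
  · intro b hb
    rw [mem_filter] at hb
    obtain ⟨a, ha, h⟩ := hsurj b hb.1
    refine ⟨a, ?_, h⟩
    rw [mem_filter]
    refine ⟨ha, ?_⟩
    have : a + a - P = b - (P - N) := by rw [← h]; abel
    rw [this]
    exact hb.2

lemma bad_eq (A : Finset G) (P : G) :
    bad A P = ((miss A).filter fun d => P - d ∈ A).card := by
  unfold bad
  apply Finset.card_bij (fun a _ => P - a)
  · intro a ha
    rw [mem_filter] at ha ⊢
    refine ⟨ha.2, ?_⟩
    have : P - (P - a) = a := by abel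
    rw [this]
    exact ha.1
  · intro a _ b _ h
    simpa using h
  · intro d hd
    rw [mem_filter] at hd
    refine ⟨P - d, ?_, by abel⟩
    rw [mem_filter]
    refine ⟨hd.2, ?_⟩
    have : P - (P - d) = d := by abel
    rw [this]
    exact hd.1

lemma bad_second_moment {A : Finset G} (hS : Sid A) :
    ∑ P, bad A P * bad A P + (miss A).card ≤
      (miss A).card * A.card + (miss A).card * (miss A).card := by
  have h1 : ∀ P, bad A P * bad A P =
      ∑ d ∈ miss A, ∑ e ∈ miss A, (if P - d ∈ A ∧ P - e ∈ A then 1 else 0) := by
    intro P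
    rw [bad_eq, Finset.card_filter, Finset.sum_mul_sum]
    apply Finset.sum_congr rfl
    intro a _
    apply Finset.sum_congr rfl
    intro b _
    by_cases ha : P - a ∈ A <;> by_cases hb : P - b ∈ A <;> simp [ha, hb]
  have h2 : ∑ P, bad A P * bad A P = ∑ d ∈ miss A, ∑ e ∈ miss A, rep A (e - d) := by
    rw [Finset.sum_congr rfl (fun P _ => h1 P), Finset.sum_comm]
    apply Finset.sum_congr rfl
    intro d _
    rw [Finset.sum_comm]
    apply Finset.sum_congr rfl
    intro e _
    rw [← Finset.card_filter]
    unfold rep
    apply Finset.card_bij (fun P _ => P - d)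
    · intro P hP
      rw [mem_filter] at hP ⊢
      refine ⟨hP.2.1, ?_⟩
      have : P - d - (e - d) = P - e := by abel
      rw [this]
      exact hP.2.2
    · intro P _ Q _ h
      simpa using h
    · intro c hc
      rw [mem_filter] at hc
      refine ⟨c + d, ?_, by abel⟩
      rw [mem_filter]
      refine ⟨mem_univ _, ?_, ?_⟩
      · have : c + d - d = c := by abel
        rw [this]
        exact hc.1
      · have : c + d - e = c - (e - d) := by abel
        rw [this]
        exact hc.2
  rw [h2, ← Finset.sum_product', ← Finset.diag_union_offDiag,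
      Finset.sum_union (Finset.disjoint_diag_offDiag (miss A)), Finset.sum_diag]
  have h3 : ∑ i ∈ miss A, rep A ((i, i).2 - (i, i).1) = (miss A).card * A.card := by
    simp [rep_zero]
  have h4 : ∑ x ∈ (miss A).offDiag, rep A (x.2 - x.1) ≤ ∑ x ∈ (miss A).offDiag, 1 := by
    apply Finset.sum_le_sum
    intro x hx
    rw [Finset.mem_offDiag] at hx
    exact rep_le_one hS (sub_ne_zero.mpr (Ne.symm hx.2.2))
  have h5 : (miss A).offDiag.card = (miss A).card * (miss A).card - (miss A).card :=
    Finset.offDiag_card _
  have h6 : (miss A).card ≤ (miss A).card * (miss A).card := Nat.le_mul_self _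
  rw [Finset.sum_const, smul_eq_mul, mul_one, h5] at h4
  omega

lemma bad_mem {A : Finset G} {P : G} (hP : P ∈ A) : bad A P = 0 := by
  unfold bad
  rw [Finset.card_eq_zero, Finset.filter_eq_empty_iff]
  intro a ha h
  rw [mem_miss] at h
  have := rep_pos hP ha (show P - a = P - a from rfl)
  omega

theorem doubling_odd (hodd : Odd (Fintype.card G)) {A : Finset G} (hS : Sid A) (hk : Odd A.card)
    {N : G} (hN : ∀ a ∈ A, a + a - N ∈ A) (hr : 1 ≤ (miss A).card) :
    A.card ≤ (miss A).card := by
  have hk1 : (A.card : ZMod 2) = 1 := by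
    obtain ⟨j, hj⟩ := hk
    rw [hj]
    push_cast
    have : (2 : ZMod 2) = 0 := by decide
    rw [this]
    simp
  have h1 : ∀ P, 2 * bad A P ≤ bad A P * bad A P + (if P - N ∈ miss A then 1 else 0) := by
    intro P
    by_cases hm : P - N ∈ miss A
    · rw [if_pos hm]
      rcases Nat.lt_or_ge (bad A P) 1 with h | h
      · have : bad A P = 0 := by omega
        rw [this]
        omega
      · nlinarith [sq_nonneg ((bad A P : ℤ) - 1), mul_self_nonneg ((bad A P : ℤ) - 1)]
    · rw [if_neg hm, add_zero]
      by_cases hP : P ∈ A
      · rw [bad_mem hP]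
      · have hpar := parity hS hP
        rw [tan_eq_rep hodd hN, hk1] at hpar
        have hrep : (rep A (P - N) : ZMod 2) = 1 := by
          by_cases h0 : P - N = 0
          · rw [h0, rep_zero, hk1]
          · have h3 := rep_le_one hS h0
            have h4 : rep A (P - N) ≠ 0 := fun h => hm (mem_miss.mpr ⟨h0, h⟩)
            have h5 : rep A (P - N) = 1 := by omega
            rw [h5]
            simp
        rw [Nat.cast_add, hrep] at hpar
        have hb : bad A P ≠ 1 := by
          intro h
          rw [h] at hpar
          exact absurd hpar (by decide)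
        rcases Nat.lt_or_ge (bad A P) 2 with h | h
        · have : bad A P = 0 := by omega
          rw [this]
        · exact Nat.mul_le_mul_right _ h
  have h2 := Finset.sum_le_sum (fun P (_ : P ∈ (univ : Finset G)) => h1 P)
  rw [← Finset.mul_sum, sum_bad, Finset.sum_add_distrib] at h2
  have h3 : ∑ P : G, (if P - N ∈ miss A then 1 else 0) = (miss A).card := by
    rw [← Finset.card_filter]
    apply Finset.card_bij (fun g _ => g - N)
    · intro g hg
      simpa using hg
    · intro g _ h _ hgh
      simpa using hgh
    · intro c hc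
      exact ⟨c + N, by simpa using hc, by abel⟩
  have h4 := bad_second_moment hS
  rw [h3] at h2
  have h5 : A.card * (miss A).card ≤ (miss A).card * (miss A).card := by nlinarith
  exact Nat.le_of_mul_le_mul_right h5 (by omega)

theorem doubling_even (hodd : Odd (Fintype.card G)) {A : Finset G} (hS : Sid A) (hk : Even A.card)
    {N : G} (hN : ∀ a ∈ A, a + a - N ∈ A) :
    A.card ≤ (miss A).card + 2 := by
  have hk1 : (A.card : ZMod 2) = 0 := by
    rw [ZMod.natCast_eq_zero_iff_even]
    exact hk
  have h1 : ∀ P, 1 ≤ bad A P + (if P ∈ A then 1 else 0) + (if P - N = 0 then 1 else 0) +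
      (if P - N ∈ miss A then 1 else 0) := by
    intro P
    by_cases hP : P ∈ A
    · rw [if_pos hP]
      omega
    by_cases h0 : P - N = 0
    · rw [if_pos h0]
      omega
    by_cases hm : P - N ∈ miss A
    · rw [if_pos hm]
      omega
    have hpar := parity hS hP
    rw [tan_eq_rep hodd hN, hk1] at hpar
    have h3 := rep_le_one hS h0
    have h4 : rep A (P - N) ≠ 0 := fun h => hm (mem_miss.mpr ⟨h0, h⟩)
    have h5 : rep A (P - N) = 1 := by omega
    rw [h5, Nat.cast_add] at hpar
    have hb : bad A P ≠ 0 := by
      intro h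
      rw [h] at hpar
      exact absurd hpar (by decide)
    omega
  have h2 := Finset.sum_le_sum (fun P (_ : P ∈ (univ : Finset G)) => h1 P)
  rw [Finset.sum_add_distrib, Finset.sum_add_distrib, Finset.sum_add_distrib, sum_bad] at h2
  have h3 : ∑ P : G, (if P - N ∈ miss A then 1 else 0) = (miss A).card := by
    rw [← Finset.card_filter]
    apply Finset.card_bij (fun g _ => g - N)
    · intro g hg
      simpa using hg
    · intro g _ h _ hgh
      simpa using hgh
    · intro c hc
      exact ⟨c + N, by simpa using hc, by abel⟩
  have h4 : ∑ P : G, (if P ∈ A then 1 else 0) = A.card := by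
    rw [← Finset.card_filter]
    congr 1
    ext g
    simp
  have h5 : ∑ P : G, (if P - N = 0 then 1 else 0) = 1 := by
    have : ∀ P : G, (if P - N = 0 then 1 else 0) = (if P = N then 1 else 0) := by
      intro P
      simp [sub_eq_zero]
    rw [Finset.sum_congr rfl (fun P _ => this P)]
    simp
  rw [h3, h4, h5, Finset.sum_const, smul_eq_mul, mul_one, Finset.card_univ] at h2
  have hcard := card_eq hS
  by_contra hcon
  push Not at hcon
  nlinarith

end Pool.Agent.Lib.MP_b020d4_co
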