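import Pool.Agent.Lib.MP_b020d4_co.Tangents

set_option autoImplicit false

open Finset

namespace Pool.Agent.Lib.MP_b020d4_co

variable {G : Type*} [AddCommGroup G] [Fintype G] [DecidableEq G]

omit [Fintype G] in
lemma tan_le (A : Finset G) (P : G) : tan A P ≤ A.card := Finset.card_filter_le _ _

/-- all tangents pass through one point -/
lemma nucleus (hodd : Odd (Fintype.card G)) {A : Finset G} (hS : Sid A) (hk : Odd A.card)
    {N : G} (hN : tan A N = A.card) (hr : 1 ≤ (miss A).card) :
    A.card + 1 ≤ 2 * (miss A).card := by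
  have h1 : ∀ a ∈ A, a + a - N ∈ A := by
    intro a ha
    have h2 : (A.filter fun a => a + a - N ∈ A) = A :=
      Finset.eq_of_subset_of_card_le (Finset.filter_subset _ _) (by
        have : (A.filter fun a => a + a - N ∈ A).card = A.card := hN
        rw [this])
    rw [← h2] at ha
    exact (mem_filter.mp ha).2
  have hinj : Set.InjOn (fun a => a + a - N) (A : Set G) := by
    intro a _ b _ h
    exact double_inj hodd (sub_left_injective h)
  have hsurj : ∀ b ∈ A, ∃ a ∈ A, a + a - N = b := by
    intro b hb
    obtain ⟨a, ha, h⟩ := Finset.surj_on_of_inj_on_of_card_le (s := A) (t := A)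
      (fun a _ => a + a - N) (fun a ha => h1 a ha)
      (fun a b ha hb h => hinj ha hb h) le_rfl b hb
    exact ⟨a, ha, h.symm⟩
  have htan : ∀ P, tan A P = rep A (P - N) := by
    intro P
    unfold tan rep
    apply Finset.card_bij (fun a _ => a + a - N)
    · intro a ha
      rw [mem_filter] at ha ⊢
      refine ⟨h1 a ha.1, ?_⟩
      have : a + a - N - (P - N) = a + a - P := by abel
      rw [this]
      exact ha.2
    · intro a ha b hb h
      rw [mem_filter] at ha hb
      exact hinj ha.1 hb.1 h
    · intro b hb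
      rw [mem_filter] at hb
      obtain ⟨a, ha, h⟩ := hsurj b hb.1
      refine ⟨a, ?_, h⟩
      rw [mem_filter]
      refine ⟨ha, ?_⟩
      have : a + a - P = b - (P - N) := by rw [← h]; abel
      rw [this]
      exact hb.2
  obtain ⟨d, hd⟩ := Finset.card_pos.mp hr
  have hd' := mem_miss.mp hd
  have h2 : ∀ a ∈ A, a + d - N ∈ miss A ∨ ∃ e ∈ (miss A).erase d, a - (e - d) ∈ A := by
    intro a ha
    by_contra hcon
    push Not at hcon
    obtain ⟨hc1, hc2⟩ := hcon
    have hPA : a + d ∉ A := by
      intro h
      have h3 := rep_pos h ha (show a + d - a = d by abel)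
      omega
    have hpar := parity hS hPA
    have hodd1 : (tan A (a + d) : ZMod 2) = 1 := by
      rw [htan]
      by_cases h0 : a + d - N = 0
      · rw [h0, rep_zero]
        obtain ⟨j, hj⟩ := hk
        rw [hj]
        push_cast
        have : (2 : ZMod 2) = 0 := by decide
        rw [this]
        simp
      · have h3 := rep_le_one hS h0
        have h4 : rep A (a + d - N) ≠ 0 := fun h => hc1 (mem_miss.mpr ⟨h0, h⟩)
        have h5 : rep A (a + d - N) = 1 := by omega
        rw [h5]
        simp
    have hone : bad A (a + d) = 1 := by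
      unfold bad
      rw [Finset.card_eq_one]
      refine ⟨a, ?_⟩
      ext b
      rw [mem_filter, mem_singleton]
      constructor
      · intro hb
        by_contra hne
        apply hc2 (a + d - b) _
        · have : a - (a + d - b - d) = b := by abel
          rw [this]
          exact hb.1
        · rw [mem_erase]
          refine ⟨?_, hb.2⟩
          intro h
          apply hne
          have h3 : a + d - b - d = 0 := by rw [h]; abel
          have h4 : a + d - b - d = a - b := by abel
          rw [h4] at h3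
          exact (sub_eq_zero.mp h3).symm
      · intro hb
        rw [hb]
        refine ⟨ha, ?_⟩
        have : a + d - a = d := by abel
        rw [this]
        exact hd
    rw [Nat.cast_add, hodd1, hone] at hpar
    have h3 : (A.card : ZMod 2) = 1 := by
      obtain ⟨j, hj⟩ := hk
      rw [hj]
      push_cast
      have : (2 : ZMod 2) = 0 := by decide
      rw [this]
      simp
    rw [h3] at hpar
    exact absurd hpar (by decide)
  have h3 : A ⊆ (A.filter fun a => a + d - N ∈ miss A) ∪
      ((miss A).erase d).biUnion (fun e => A.filter fun a => a - (e - d) ∈ A) := by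
    intro a ha
    rw [mem_union]
    rcases h2 a ha with h | ⟨e, he, h⟩
    · left
      rw [mem_filter]
      exact ⟨ha, h⟩
    · right
      rw [mem_biUnion]
      exact ⟨e, he, by rw [mem_filter]; exact ⟨ha, h⟩⟩
  have h4 : (A.filter fun a => a + d - N ∈ miss A).card ≤ (miss A).card := by
    apply Finset.card_le_card_of_injOn (fun a => a + d - N)
    · intro a ha
      rw [Finset.mem_coe, mem_filter] at ha
      exact ha.2
    · intro a _ b _ h
      simpa using h
  have h5 : (((miss A).erase d).biUnion (fun e => A.filter fun a => a - (e - d) ∈ A)).card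
      ≤ ((miss A).erase d).card * 1 := by
    apply Finset.card_biUnion_le_card_mul
    intro e he
    rw [mem_erase] at he
    exact rep_le_one hS (sub_ne_zero.mpr he.1)
  have h6 := (Finset.card_le_card h3).trans (Finset.card_union_le _ _)
  rw [Finset.card_erase_of_mem hd] at h5
  omega

omit [Fintype G] in
/-- a point which is not on all tangents is on at most `2 r + 1` of them, and the other lines
through it carry many points lying on no tangent -/
lemma through {A : Finset G} (hS : Sid A) {P : G} {c : G} (hc : c ∈ A)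
    (hy : ∀ a ∈ A, a + a ≠ P + c) :
    tan A P ≤ ((A.erase c).filter fun b => tan A (P + c - b) = 0).card + 1 := by
  have h1 := line_le hS hy
  rw [← Finset.add_sum_erase A _ hc] at h1
  have h2 : P + c - c = P := by abel
  rw [h2] at h1
  have h3 : (A.erase c).card ≤ ∑ b ∈ A.erase c, tan A (P + c - b) +
      ((A.erase c).filter fun b => tan A (P + c - b) = 0).card := by
    rw [Finset.card_filter, ← Finset.sum_add_distrib, Finset.card_eq_sum_ones]
    apply Finset.sum_le_sum
    intro b _
    by_cases h : tan A (P + c - b) = 0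
    · rw [if_pos h]
      omega
    · rw [if_neg h]
      omega
  rw [Finset.card_erase_of_mem hc] at h3
  have h4 : 0 < A.card := Finset.card_pos.mpr ⟨c, hc⟩
  omega

lemma card_nontangent (A : Finset G) (P : G) :
    A.card ≤ tan A P + (A.filter fun c => ∀ a ∈ A, a + a ≠ P + c).card := by
  have h1 : (A.filter fun c => ∀ a ∈ A, a + a ≠ P + c).card +
      (A.filter fun c => ¬ ∀ a ∈ A, a + a ≠ P + c).card = A.card :=
    Finset.card_filter_add_card_filter_not _
  have h2 : (A.filter fun c => ¬ ∀ a ∈ A, a + a ≠ P + c) ⊆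
      (A.filter fun a => a + a - P ∈ A).image (fun a => a + a - P) := by
    intro c hc
    rw [mem_filter] at hc
    push Not at hc
    obtain ⟨hc1, a, ha, h⟩ := hc
    rw [mem_image]
    have h3 : a + a - P = c := by rw [h]; abel
    exact ⟨a, by rw [mem_filter, h3]; exact ⟨ha, hc1⟩, h3⟩
  have h3 : (A.filter fun c => ¬ ∀ a ∈ A, a + a ≠ P + c).card ≤ tan A P :=
    (Finset.card_le_card h2).trans Finset.card_image_le
  omega

/-- number of points lying on no tangent -/
lemma zeros_le {A : Finset G} (hS : Sid A) (hk : Odd A.card) :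
    (univ.filter fun P => tan A P = 0).card ≤ A.card * (miss A).card := by
  rw [← sum_bad, Finset.card_filter]
  apply Finset.sum_le_sum
  intro P _
  by_cases h : tan A P = 0
  · rw [if_pos h]
    exact bad_pos hS hk h
  · rw [if_neg h]
    exact Nat.zero_le _

lemma zeros_ge {A : Finset G} (hS : Sid A) (P : G) :
    (A.card - tan A P) * (tan A P - 1) ≤ (univ.filter fun P => tan A P = 0).card := by
  have h1 := card_nontangent A P
  have h2 : ∑ c ∈ (A.filter fun c => ∀ a ∈ A, a + a ≠ P + c),
      ((A.erase c).filter fun b => tan A (P + c - b) = 0).card ≤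
      (univ.filter fun P => tan A P = 0).card := by
    rw [← Finset.card_sigma]
    apply Finset.card_le_card_of_injOn (fun x => P + x.1 - x.2)
    · intro x hx
      rw [Finset.mem_coe, mem_sigma, mem_filter, mem_filter] at hx
      rw [Finset.mem_coe, mem_filter]
      exact ⟨mem_univ _, hx.2.2⟩
    · intro x hx y hy h
      rw [Finset.mem_coe, mem_sigma, mem_filter, mem_filter, mem_erase] at hx hy
      have h3 : x.1 + y.2 = y.1 + x.2 := by
        have h4 : P + x.1 - x.2 = P + y.1 - y.2 := h
        calc x.1 + y.2 = (P + x.1 - x.2) + x.2 + y.2 - P := by abel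
          _ = (P + y.1 - y.2) + x.2 + y.2 - P := by rw [h4]
          _ = y.1 + x.2 := by abel
      rcases hS x.1 hx.1.1 y.2 hy.2.1.2 y.1 hy.1.1 x.2 hx.2.1.2 h3 with h | h
      · obtain ⟨x1, x2⟩ := x
        obtain ⟨y1, y2⟩ := y
        simp only at h
        obtain ⟨ha, hb⟩ := h
        subst ha
        subst hb
        rfl
      · exact absurd h.1.symm hx.2.1.1
  have h3 : ∀ c ∈ (A.filter fun c => ∀ a ∈ A, a + a ≠ P + c), tan A P - 1 ≤
      ((A.erase c).filter fun b => tan A (P + c - b) = 0).card := by
    intro c hc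
    rw [mem_filter] at hc
    have := through hS hc.1 hc.2
    omega
  calc (A.card - tan A P) * (tan A P - 1)
      ≤ (A.filter fun c => ∀ a ∈ A, a + a ≠ P + c).card * (tan A P - 1) :=
        Nat.mul_le_mul_right _ (by omega)
    _ = ∑ c ∈ (A.filter fun c => ∀ a ∈ A, a + a ≠ P + c), (tan A P - 1) := by
        rw [Finset.sum_const, smul_eq_mul]
    _ ≤ _ := (Finset.sum_le_sum h3).trans h2

lemma tan_le_two {A : Finset G} (hS : Sid A) (hk : Odd A.card) {P : G}
    (hP : tan A P ≠ A.card) : tan A P ≤ 2 * (miss A).card + 1 := by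
  have h1 := card_nontangent A P
  have h2 := tan_le A P
  have h3 : 0 < (A.filter fun c => ∀ a ∈ A, a + a ≠ P + c).card := by omega
  obtain ⟨c, hc⟩ := Finset.card_pos.mp h3
  rw [mem_filter] at hc
  have h4 := through hS hc.1 hc.2
  have h5 : ((A.erase c).filter fun b => tan A (P + c - b) = 0).card ≤
      (A.filter fun b => tan A (P + c - b) = 0).card :=
    Finset.card_le_card (Finset.filter_subset_filter _ (Finset.erase_subset _ _))
  have h6 := zeros_line_le hS hk (P + c)
  omega

theorem main (hodd : Odd (Fintype.card G)) {A : Finset G} (hS : Sid A) (hk : Odd A.card)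
    (hr : 1 ≤ (miss A).card) :
    A.card ≤ ((miss A).card + 1) * ((miss A).card + 2) := by
  set r := (miss A).card with hrdef
  set k := A.card with hkdef
  by_contra hcon
  push Not at hcon
  have hk1 : r * r + 3 * r + 3 ≤ k := by nlinarith
  -- there is no point on all tangents
  have hno : ∀ P, tan A P ≠ k := by
    intro N hN
    have := nucleus hodd hS hk hN hr
    nlinarith
  have hz := zeros_le hS hk
  -- hence every point is on at most r + 2 tangents
  have hle : ∀ P, tan A P ≤ r + 2 := by
    intro P
    by_contra h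
    push Not at h
    have h1 := tan_le_two hS hk (hno P)
    have h2 := (zeros_ge hS P).trans hz
    have h3 : (k - (2 * r + 1)) * (r + 2) ≤ (k - tan A P) * (tan A P - 1) :=
      Nat.mul_le_mul (by omega) (by omega)
    have h4 : (k - (2 * r + 1)) * (r + 2) ≤ k * r := h3.trans h2
    have h5 : 2 * r + 1 ≤ k := by nlinarith
    zify [h5] at h4
    zify at hk1
    nlinarith
  have hsq := second_moment_ge hodd hS
  have hsum := sum_tan A
  have hcard := card_eq hS
  have hpt : ∀ P, ((tan A P : ℤ) - 1) * ((tan A P : ℤ) - 1) ≤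
      ((r : ℤ) + 1) * ((tan A P : ℤ) - 1) + ((r : ℤ) + 2) * (if tan A P = 0 then 1 else 0) := by
    intro P
    by_cases h : tan A P = 0
    · rw [if_pos h, h]
      push_cast
      nlinarith
    · rw [if_neg h]
      have h1 : (1 : ℤ) ≤ tan A P := by
        have : 1 ≤ tan A P := by omega
        exact_mod_cast this
      have h2 : (tan A P : ℤ) ≤ r + 2 := by exact_mod_cast hle P
      nlinarith
  have htot := Finset.sum_le_sum (fun P (_ : P ∈ (univ : Finset G)) => hpt P)
  have e1 : ∑ P : G, ((tan A P : ℤ) - 1) * ((tan A P : ℤ) - 1) =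
      ((∑ P, tan A P * tan A P : ℕ) : ℤ) - 2 * ((∑ P, tan A P : ℕ) : ℤ) + Fintype.card G := by
    push_cast
    have : ∀ P : G, ((tan A P : ℤ) - 1) * ((tan A P : ℤ) - 1) =
        (tan A P : ℤ) * tan A P - 2 * tan A P + 1 := by intro P; ring
    rw [Finset.sum_congr rfl (fun P _ => this P), Finset.sum_add_distrib, Finset.sum_sub_distrib,
      ← Finset.mul_sum]
    simp
  have e2 : ∑ P : G, (((r : ℤ) + 1) * ((tan A P : ℤ) - 1) +
      ((r : ℤ) + 2) * (if tan A P = 0 then 1 else 0)) =
      ((r : ℤ) + 1) * (((∑ P, tan A P : ℕ) : ℤ) - Fintype.card G) +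
      ((r : ℤ) + 2) * ((univ.filter fun P : G => tan A P = 0).card : ℤ) := by
    rw [Finset.sum_add_distrib, ← Finset.mul_sum, ← Finset.mul_sum, Finset.sum_sub_distrib,
      Finset.card_filter]
    push_cast
    simp
  rw [e1, e2, hsum] at htot
  have hz' : ((univ.filter fun P : G => tan A P = 0).card : ℤ) ≤ (k : ℤ) * r := by
    exact_mod_cast hz
  have hsq' : (2 : ℤ) * (k * k) ≤ ((∑ P, tan A P * tan A P : ℕ) : ℤ) + k + r := by
    exact_mod_cast hsq
  have hcard' : (Fintype.card G : ℤ) + k = k * k + 1 + r := by
    exact_mod_cast hcard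
  have hk1' : (r : ℤ) * r + 3 * r + 3 ≤ k := by exact_mod_cast hk1
  have hr0 : (0 : ℤ) ≤ r := by positivity
  have hk0 : (0 : ℤ) ≤ k := by positivity
  push_cast at htot
  have hc1 : (Fintype.card G : ℤ) = k * k + 1 + r - k := by linarith
  rw [hc1] at htot
  have hz2 : ((r : ℤ) + 2) * ((univ.filter fun P : G => tan A P = 0).card : ℤ) ≤
      ((r : ℤ) + 2) * (k * r) := by
    apply mul_le_mul_of_nonneg_left hz'
    linarith
  push_cast at hsq'
  have hfin : (k : ℤ) * k - 2 * k + 1 ≤ ((r : ℤ) + 1) * (k - 1 - r) + ((r : ℤ) + 2) * (k * r) := by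
    linarith
  nlinarith

/-- the real form of the bound -/
lemma real_form {v k r : ℕ} (hv : 0 < v) (h1 : v + k = k * k + 1 + r)
    (h2 : k ≤ (r + 1) * (r + 2)) :
    (k : ℝ) ≤ √(v : ℝ) + 1 / 2 - 1 / (2 * √(√(v : ℝ))) + 3 / (8 * √(v : ℝ)) := by
  have hv0 : (0 : ℝ) < v := by exact_mod_cast hv
  have hq0 : 0 < √(v : ℝ) := Real.sqrt_pos.mpr hv0
  have hs0 : 0 < √(√(v : ℝ)) := Real.sqrt_pos.mpr hq0
  set s := √(√(v : ℝ)) with hs
  have hq : √(v : ℝ) = s * s := (Real.mul_self_sqrt hq0.le).symm
  have hv4 : (v : ℝ) = (s * s) * (s * s) := by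
    rw [← hq]
    exact (Real.mul_self_sqrt hv0.le).symm
  rw [hq]
  have h1' : (v : ℝ) + k = k * k + 1 + r := by exact_mod_cast h1
  have h2' : (k : ℝ) ≤ (r + 1) * (r + 2) := by exact_mod_cast h2
  have hr0 : (0 : ℝ) ≤ r := Nat.cast_nonneg _
  have hB : s * s - 1 / (2 * s) + 3 / (8 * (s * s)) =
      s * s + (1 / s) * (-(1 / 2) + 3 / 8 * (1 / s)) := by
    field_simp
    ring
  have hi : s * (1 / s) = 1 := by field_simp
  set w := 1 / s with hw
  have hw0 : 0 < w := by positivity
  have key : (k : ℝ) - 1 / 2 ≤ s * s + w * (-(1 / 2) + 3 / 8 * w) := by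
    by_cases hk : (k : ℝ) < s * s
    · have : 0 ≤ 1 / 2 + w * (-(1 / 2) + 3 / 8 * w) := by nlinarith [sq_nonneg (w - 2 / 3)]
      linarith
    · push Not at hk
      have hrs : s < r + 3 / 2 := by
        by_contra hcon
        push Not at hcon
        nlinarith
      apply le_of_sq_le_sq
      · have e1 : ((k : ℝ) - 1 / 2) ^ 2 = (s * s) * (s * s) - 3 / 4 - r := by
          nlinarith
        have e2 : (s * s + w * (-(1 / 2) + 3 / 8 * w)) ^ 2 =
            (s * s) * (s * s) - (s * w) * s + 3 / 4 * (s * w) ^ 2 +
              (w * (-(1 / 2) + 3 / 8 * w)) ^ 2 := by ring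
        rw [e1, e2, hi]
        nlinarith [sq_nonneg (w * (-(1 / 2) + 3 / 8 * w))]
      · have : 0 ≤ s * s + w * (-(1 / 2) + 3 / 8 * w) := by
          have h3 : (1 : ℝ) ≤ v := by exact_mod_cast hv
          have h4 : 1 ≤ s := by
            by_contra hcon
            push Not at hcon
            have h6 : s * s < 1 := by nlinarith
            have h7 : (s * s) * (s * s) < 1 := by nlinarith [mul_pos hs0 hs0]
            linarith
          have h5 : w ≤ 1 := by
            rw [hw]
            rw [div_le_one hs0]
            exact h4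
          nlinarith
        exact this
  rw [← hB] at key
  linarith

end Pool.Agent.Lib.MP_b020d4_co
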