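import Pool.Agent.Lib.MP_b020d4_co.Basic

set_option autoImplicit false

open Finset

namespace Pool.Agent.Lib.MP_b020d4_co

variable {G : Type*} [AddCommGroup G] [Fintype G] [DecidableEq G]

omit [DecidableEq G] in
lemma double_inj (hodd : Odd (Fintype.card G)) {x y : G} (h : x + x = y + y) : x = y := by
  have h1 : (2 : ℕ) • (x - y) = 0 := by
    rw [two_nsmul]
    have : x - y + (x - y) = (x + x) - (y + y) := by abel
    rw [this, h, sub_self]
  have h2 : addOrderOf (x - y) ∣ 2 := addOrderOf_dvd_iff_nsmul_eq_zero.mpr h1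
  have h3 : addOrderOf (x - y) ∣ Fintype.card G := addOrderOf_dvd_card
  have h4 : Nat.Coprime 2 (Fintype.card G) := Nat.coprime_two_left.mpr hodd
  have h5 : addOrderOf (x - y) = 1 := Nat.eq_one_of_dvd_coprimes h4 h2 h3
  rw [AddMonoid.addOrderOf_eq_one_iff] at h5
  exact sub_eq_zero.mp h5

lemma second_moment (A : Finset G) :
    ∑ P, tan A P * tan A P = ∑ a ∈ A, ∑ b ∈ A, rep A (a + a - (b + b)) := by
  have h1 : ∀ P, tan A P * tan A P =
      ∑ a ∈ A, ∑ b ∈ A, (if a + a - P ∈ A ∧ b + b - P ∈ A then 1 else 0) := by
    intro P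
    unfold tan
    rw [Finset.card_filter, Finset.sum_mul_sum]
    apply Finset.sum_congr rfl
    intro a _
    apply Finset.sum_congr rfl
    intro b _
    by_cases ha : a + a - P ∈ A <;> by_cases hb : b + b - P ∈ A <;> simp [ha, hb]
  rw [Finset.sum_congr rfl (fun P _ => h1 P), Finset.sum_comm]
  apply Finset.sum_congr rfl
  intro a _
  rw [Finset.sum_comm]
  apply Finset.sum_congr rfl
  intro b _
  rw [← Finset.card_filter]
  unfold rep
  apply Finset.card_bij (fun P _ => a + a - P)
  · intro P hP
    rw [mem_filter] at hP ⊢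
    refine ⟨hP.2.1, ?_⟩
    have : a + a - P - (a + a - (b + b)) = b + b - P := by abel
    rw [this]
    exact hP.2.2
  · intro P _ Q _ h
    simpa using h
  · intro c hc
    rw [mem_filter] at hc
    refine ⟨a + a - c, ?_, by abel⟩
    rw [mem_filter]
    refine ⟨mem_univ _, ?_, ?_⟩
    · have : a + a - (a + a - c) = c := by abel
      rw [this]
      exact hc.1
    · have : b + b - (a + a - c) = c - (a + a - (b + b)) := by abel
      rw [this]
      exact hc.2

lemma second_moment_ge (hodd : Odd (Fintype.card G)) {A : Finset G} (hS : Sid A) :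
    2 * (A.card * A.card) ≤ ∑ P, tan A P * tan A P + A.card + (miss A).card := by
  rw [second_moment, ← Finset.sum_product', ← Finset.diag_union_offDiag,
      Finset.sum_union (Finset.disjoint_diag_offDiag A), Finset.sum_diag]
  have h1 : ∑ i ∈ A, rep A ((i, i).1 + (i, i).1 - ((i, i).2 + (i, i).2)) =
      A.card * A.card := by
    simp [rep_zero]
  have h2 : ∀ x ∈ A.offDiag, rep A (x.1 + x.1 - (x.2 + x.2)) +
      (if x.1 + x.1 - (x.2 + x.2) ∈ miss A then 1 else 0) = 1 := by
    intro x hx
    rw [Finset.mem_offDiag] at hx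
    have h0 : x.1 + x.1 - (x.2 + x.2) ≠ 0 := by
      intro h
      exact hx.2.2 (double_inj hodd (sub_eq_zero.mp h))
    have h3 := rep_le_one hS h0
    by_cases hm : x.1 + x.1 - (x.2 + x.2) ∈ miss A
    · rw [if_pos hm]
      rw [mem_miss] at hm
      omega
    · rw [if_neg hm]
      rw [mem_miss] at hm
      have : rep A (x.1 + x.1 - (x.2 + x.2)) ≠ 0 := fun h => hm ⟨h0, h⟩
      omega
  have h3 : ∑ x ∈ A.offDiag, rep A (x.1 + x.1 - (x.2 + x.2)) +
      ∑ x ∈ A.offDiag, (if x.1 + x.1 - (x.2 + x.2) ∈ miss A then 1 else 0) = A.offDiag.card := by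
    rw [← Finset.sum_add_distrib, Finset.sum_congr rfl h2]
    simp
  have h4 : ∑ x ∈ A.offDiag, (if x.1 + x.1 - (x.2 + x.2) ∈ miss A then 1 else 0)
      ≤ (miss A).card := by
    rw [← Finset.card_filter]
    apply Finset.card_le_card_of_injOn (fun x => x.1 + x.1 - (x.2 + x.2))
    · intro x hx
      rw [Finset.mem_coe, mem_filter] at hx
      exact hx.2
    · intro x hx y hy h
      rw [Finset.mem_coe, mem_filter, Finset.mem_offDiag] at hx hy
      have h5 : (x.1 + y.2) + (x.1 + y.2) = (y.1 + x.2) + (y.1 + x.2) := by
        have h6 : x.1 + x.1 - (x.2 + x.2) = y.1 + y.1 - (y.2 + y.2) := h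
        calc (x.1 + y.2) + (x.1 + y.2)
            = (x.1 + x.1 - (x.2 + x.2)) + (x.2 + x.2) + (y.2 + y.2) := by abel
          _ = (y.1 + y.1 - (y.2 + y.2)) + (x.2 + x.2) + (y.2 + y.2) := by rw [h6]
          _ = (y.1 + x.2) + (y.1 + x.2) := by abel
      rcases hS x.1 hx.1.1 y.2 hy.1.2.1 y.1 hy.1.1 x.2 hx.1.2.1 (double_inj hodd h5) with h | h
      · exact Prod.ext h.1 h.2.symm
      · exact absurd h.1 hx.1.2.2
  have h5 : A.offDiag.card = A.card * A.card - A.card := Finset.offDiag_card A
  have h6 : A.card ≤ A.card * A.card := Nat.le_mul_self _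
  omega

omit [Fintype G] in
/-- the tangents meet a line which is not a tangent at most once each -/
lemma line_le {A : Finset G} (hS : Sid A) {y : G} (hy : ∀ a ∈ A, a + a ≠ y) :
    ∑ c ∈ A, tan A (y - c) ≤ A.card := by
  have h1 : ∑ c ∈ A, tan A (y - c) = ∑ a ∈ A, rep A (y - (a + a)) := by
    unfold tan rep
    simp_rw [Finset.card_filter]
    rw [Finset.sum_comm]
    apply Finset.sum_congr rfl
    intro a _
    apply Finset.sum_congr rfl
    intro c _
    have : a + a - (y - c) = c - (y - (a + a)) := by abel
    rw [this]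
  rw [h1]
  calc ∑ a ∈ A, rep A (y - (a + a)) ≤ ∑ a ∈ A, 1 := by
        apply Finset.sum_le_sum
        intro a ha
        apply rep_le_one hS
        intro h
        exact hy a ha (sub_eq_zero.mp h).symm
    _ = A.card := by simp

/-- a point on no tangent is not joined to some point of `A` -/
lemma bad_pos {A : Finset G} (hS : Sid A) (hk : Odd A.card) {P : G} (hP : tan A P = 0) :
    1 ≤ bad A P := by
  have hPA : P ∉ A := by
    intro h
    have : 1 ≤ tan A P := by
      unfold tan
      apply Finset.card_pos.mpr
      exact ⟨P, by simpa using h⟩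
    omega
  have h1 := parity hS hPA
  rw [hP, zero_add] at h1
  by_contra h
  have h2 : bad A P = 0 := by omega
  rw [h2] at h1
  have h3 : (A.card : ZMod 2) = 1 := by
    obtain ⟨j, hj⟩ := hk
    rw [hj]
    push_cast
    have : (2 : ZMod 2) = 0 := by decide
    rw [this]
    simp
  rw [h3] at h1
  exact absurd h1 (by decide)

/-- a line carries few points lying on no tangent -/
lemma zeros_line_le {A : Finset G} (hS : Sid A) (hk : Odd A.card) (y : G) :
    (A.filter fun b => tan A (y - b) = 0).card ≤ 2 * (miss A).card := by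
  calc (A.filter fun b => tan A (y - b) = 0).card
      = ∑ b ∈ A, (if tan A (y - b) = 0 then 1 else 0) := Finset.card_filter _ _
    _ ≤ ∑ b ∈ A, bad A (y - b) := by
        apply Finset.sum_le_sum
        intro b _
        by_cases h : tan A (y - b) = 0
        · rw [if_pos h]
          exact bad_pos hS hk h
        · rw [if_neg h]
          exact Nat.zero_le _
    _ = ∑ b ∈ A, ∑ a ∈ A, ∑ d ∈ miss A, (if y - b - a = d then 1 else 0) := by
        apply Finset.sum_congr rfl
        intro b _
        unfold bad
        rw [Finset.card_filter]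
        apply Finset.sum_congr rfl
        intro a _
        rw [Finset.sum_ite_eq]
    _ = ∑ d ∈ miss A, ∑ b ∈ A, ∑ a ∈ A, (if y - b - a = d then 1 else 0) := by
        rw [Finset.sum_comm (s := miss A)]
        apply Finset.sum_congr rfl
        intro b _
        rw [Finset.sum_comm]
    _ ≤ ∑ d ∈ miss A, 2 := by
        apply Finset.sum_le_sum
        intro d _
        have h1 : ∑ b ∈ A, ∑ a ∈ A, (if y - b - a = d then 1 else 0) =
            (A.filter fun b => (y - d) - b ∈ A).card := by
          rw [Finset.card_filter]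
          apply Finset.sum_congr rfl
          intro b _
          have h2 : ∀ a ∈ A, (if y - b - a = d then 1 else 0) =
              (if (y - d) - b = a then 1 else 0) := by
            intro a _
            congr 1
            apply propext
            constructor
            · intro h
              rw [← h]
              abel
            · intro h
              rw [← h]
              abel
          rw [Finset.sum_congr rfl h2, Finset.sum_ite_eq]
        rw [h1]
        exact card_sum_le_two hS _
    _ = 2 * (miss A).card := by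
        simp [mul_comm]

end Pool.Agent.Lib.MP_b020d4_co
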